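import Pool.Agent.H979.DE.Stm

/-!
# Tails of the zeta series and the algebra of the urn (task DE ALG)
-/

set_option autoImplicit false

open MeasureTheory Finset Filter Pool.Agent.H41.Derrw Pool.Agent.H979.DE

namespace Pool.Agent.H411

theorem de_tl_summable {s : ℝ} (hs : 1 < s) (m : ℕ) :
    Summable fun j : ℕ => ((m + j : ℕ) : ℝ) ^ (-s) := by
  have h : Summable fun n : ℕ => (n : ℝ) ^ (-s) := Real.summable_nat_rpow.mpr (by linarith)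
  have h2 := (summable_nat_add_iff m).mpr h
  refine h2.congr fun j => ?_
  rw [Nat.add_comm m j]

theorem de_tl : S_TL := by
  intro s hs
  refine ⟨fun m _ => ?_, fun m hm => ?_, ?_⟩
  · unfold tl
    rw [(de_tl_summable hs m).tsum_eq_zero_add, Nat.add_zero]
    congr 1
    refine tsum_congr fun j => ?_
    rw [show m + (j + 1) = m + 1 + j by ring]
  · unfold tl
    refine (de_tl_summable hs m).tsum_pos (fun j => by positivity) 0 ?_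
    have : (0 : ℝ) < ((m + 0 : ℕ) : ℝ) := by
      rw [Nat.add_zero]
      exact_mod_cast hm
    positivity
  · have h := tendsto_sum_nat_add fun n : ℕ => (n : ℝ) ^ (-s)
    refine h.congr fun m => ?_
    unfold tl
    refine tsum_congr fun j => ?_
    rw [Nat.add_comm m j]

theorem de_alg_step (A B a b Y R : ℝ) (hA : A * a = 1) (hB : B * b = 1) (hA0 : 0 ≤ A)
    (hB0 : 0 ≤ B) (ha : a ^ 2 ≤ R) (hb : b ^ 2 ≤ R) :
    A * ((Y - a) - Y) + B * ((Y + b) - Y) = 0 ∧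
    A * (((Y - a) ^ 2 + (R - a ^ 2)) - (Y ^ 2 + R)) +
      B * (((Y + b) ^ 2 + (R - b ^ 2)) - (Y ^ 2 + R)) = 0 ∧
    A * (((Y - a) ^ 4 + 8 * (Y - a) ^ 2 * (R - a ^ 2) + 19 * (R - a ^ 2) ^ 2) -
        (Y ^ 4 + 8 * Y ^ 2 * R + 19 * R ^ 2)) +
      B * (((Y + b) ^ 4 + 8 * (Y + b) ^ 2 * (R - b ^ 2) + 19 * (R - b ^ 2) ^ 2) -
        (Y ^ 4 + 8 * Y ^ 2 * R + 19 * R ^ 2)) ≤ 0 := by
  refine ⟨by linear_combination hB - hA, by linear_combination 2 * Y * (hB - hA), ?_⟩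
  have h1 : 0 ≤ A * (2 * a ^ 2 * (Y - 3 * a) ^ 2 + 30 * a ^ 2 * (R - a ^ 2)) :=
    mul_nonneg hA0 (add_nonneg (by positivity) (mul_nonneg (by positivity) (by linarith)))
  have h2 : 0 ≤ B * (2 * b ^ 2 * (Y + 3 * b) ^ 2 + 30 * b ^ 2 * (R - b ^ 2)) :=
    mul_nonneg hB0 (add_nonneg (by positivity) (mul_nonneg (by positivity) (by linarith)))
  have h3 : A * (((Y - a) ^ 4 + 8 * (Y - a) ^ 2 * (R - a ^ 2) + 19 * (R - a ^ 2) ^ 2) -
        (Y ^ 4 + 8 * Y ^ 2 * R + 19 * R ^ 2)) +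
      B * (((Y + b) ^ 4 + 8 * (Y + b) ^ 2 * (R - b ^ 2) + 19 * (R - b ^ 2) ^ 2) -
        (Y ^ 4 + 8 * Y ^ 2 * R + 19 * R ^ 2)) =
      -(A * (2 * a ^ 2 * (Y - 3 * a) ^ 2 + 30 * a ^ 2 * (R - a ^ 2))) -
      B * (2 * b ^ 2 * (Y + 3 * b) ^ 2 + 30 * b ^ 2 * (R - b ^ 2)) := by
    linear_combination (4 * Y ^ 3 + 16 * Y * R) * (hB - hA)
  rw [h3]
  linarith

theorem de_alg (h1 : S_TL) : S_ALG := by
  intro γ μ hγ α β hα hβ Y R I
  have hα0 : (0 : ℝ) < α := by exact_mod_cast hα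
  have hβ0 : (0 : ℝ) < β := by exact_mod_cast hβ
  obtain ⟨t1, -, -⟩ := h1 γ hγ
  obtain ⟨t2, p2, -⟩ := h1 (2 * γ) (by linarith)
  have e1 := t1 α hα
  have e2 := t1 β hβ
  have f1 := t2 α hα
  have f2 := t2 β hβ
  have p1 := p2 (α + 1) (by omega)
  have p3 := p2 (β + 1) (by omega)
  have q1 : (α : ℝ) ^ (-(2 * γ)) = ((α : ℝ) ^ (-γ)) ^ 2 := by
    rw [← Real.rpow_natCast, ← Real.rpow_mul hα0.le]
    congr 1
    push_cast
    ring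
  have q2 : (β : ℝ) ^ (-(2 * γ)) = ((β : ℝ) ^ (-γ)) ^ 2 := by
    rw [← Real.rpow_natCast, ← Real.rpow_mul hβ0.le]
    congr 1
    push_cast
    ring
  have hA : (α : ℝ) ^ γ * (α : ℝ) ^ (-γ) = 1 := by
    rw [← Real.rpow_add hα0, add_neg_cancel, Real.rpow_zero]
  have hB : (β : ℝ) ^ γ * (β : ℝ) ^ (-γ) = 1 := by
    rw [← Real.rpow_add hβ0, add_neg_cancel, Real.rpow_zero]
  have y1 : Y (α + 1) β = Y α β - (α : ℝ) ^ (-γ) := by
    change tl γ (α + 1) - tl γ β - μ = tl γ α - tl γ β - μ - (α : ℝ) ^ (-γ)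
    linarith
  have y2 : Y α (β + 1) = Y α β + (β : ℝ) ^ (-γ) := by
    change tl γ α - tl γ (β + 1) - μ = tl γ α - tl γ β - μ + (β : ℝ) ^ (-γ)
    linarith
  have r1 : R (α + 1) β = R α β - ((α : ℝ) ^ (-γ)) ^ 2 := by
    change tl (2 * γ) (α + 1) + tl (2 * γ) β = tl (2 * γ) α + tl (2 * γ) β - ((α : ℝ) ^ (-γ)) ^ 2
    linarith
  have r2 : R α (β + 1) = R α β - ((β : ℝ) ^ (-γ)) ^ 2 := by
    change tl (2 * γ) α + tl (2 * γ) (β + 1) = tl (2 * γ) α + tl (2 * γ) β - ((β : ℝ) ^ (-γ)) ^ 2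
    linarith
  have hα2 := p2 α hα
  have hβ2 := p2 β hβ
  have s1 : ((α : ℝ) ^ (-γ)) ^ 2 ≤ R α β := by
    change ((α : ℝ) ^ (-γ)) ^ 2 ≤ tl (2 * γ) α + tl (2 * γ) β
    linarith
  have s2 : ((β : ℝ) ^ (-γ)) ^ 2 ≤ R α β := by
    change ((β : ℝ) ^ (-γ)) ^ 2 ≤ tl (2 * γ) α + tl (2 * γ) β
    linarith
  have key := de_alg_step ((α : ℝ) ^ γ) ((β : ℝ) ^ γ) ((α : ℝ) ^ (-γ)) ((β : ℝ) ^ (-γ)) (Y α β)
    (R α β) hA hB (by positivity) (by positivity) s1 s2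
  rw [← y1, ← y2, ← r1, ← r2] at key
  exact key

end Pool.Agent.H411
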